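import Pool.Agent.Helper99.SI.StK

/-! Module K9 of project SI: symmetry of the second grading. -/

set_option autoImplicit false

namespace Pool.Agent.Helper57.SI

open Pool.Agent.Helper99.SI

/-- a Laurent polynomial that vanishes outside of zero is zero -/
theorem laurent (c : ℤ → ℂ) (hc : c.support.Finite)
    (h : ∀ z : ℂ, z ≠ 0 → ∑ᶠ j : ℤ, z ^ j * c j = 0) : c = 0 := by
  have hli : LinearIndependent ℂ (fun f : ℂˣ →* ℂ => (f : ℂˣ → ℂ)) :=
    linearIndependent_monoidHom ℂˣ ℂ
  let χ : ℤ → (ℂˣ →* ℂ) := fun j => (Units.coeHom ℂ).comp (zpowGroupHom j)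
  have hχ : ∀ (j : ℤ) (u : ℂˣ), χ j u = (u : ℂ) ^ j := by
    intro j u
    simp [χ]
  have hinj : Function.Injective χ := by
    intro i j hij
    have h1 := DFunLike.congr_fun hij (Units.mk0 (2 : ℂ) two_ne_zero)
    rw [hχ, hχ, Units.val_mk0] at h1
    have h2 := congrArg norm h1
    rw [norm_zpow, norm_zpow, Complex.norm_ofNat] at h2
    exact zpow_right_injective₀ (by norm_num : (0 : ℝ) < 2) (by norm_num) h2
  have h2 := hli.comp χ hinj
  rw [linearIndependent_iff'] at h2
  funext j
  by_contra hj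
  refine hj (h2 hc.toFinset c ?_ j (by simpa using hj))
  funext u
  have h3 := h u u.ne_zero
  rw [finsum_eq_sum_of_support_subset (s := hc.toFinset)] at h3
  · rw [Finset.sum_apply, Pi.zero_apply, ← h3]
    refine Finset.sum_congr rfl fun i _ => ?_
    simp only [Function.comp_apply, Pi.smul_apply, smul_eq_mul, hχ]
    ring
  · intro i hi
    simp only [Set.Finite.coe_toFinset, Function.mem_support] at hi ⊢
    intro h0
    exact hi (by rw [h0, mul_zero])

section general

variable {n : ℕ} {L : Type} [Ring L] [Algebra ℂ L] [StarRing L] [StarModule ℂ L] [Nontrivial L]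

theorem tau_ev (h4 : StK2) (D : Sys n L) (b : W n) (hb : b ≠ []) (t : ℂ) (y : L) :
    D.tau b (D.b.ev t y) = ∑ᶠ j : ℤ, t ^ j * D.tau b (D.b.p j y) := by
  obtain ⟨_, hadd, hsm, _⟩ := h4 n L D b hb
  let T : L →+ ℂ := AddMonoidHom.mk' (D.tau b) hadd
  have h := T.map_finsum (D.b.fin' (fun j => t ^ j) y)
  change T (∑ᶠ j : ℤ, (t ^ j) • D.b.p j y) = _
  rw [h]
  exact finsum_congr fun j => hsm _ _

theorem tau_fin (h4 : StK2) (D : Sys n L) (b : W n) (hb : b ≠ []) (y : L) :
    (Function.support fun j : ℤ => D.tau b (D.b.p j y)).Finite := by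
  obtain ⟨_, hadd, hsm, _⟩ := h4 n L D b hb
  refine (D.b.fin y).subset ?_
  intro j hj h0
  apply hj
  change D.tau b (D.b.p j y) = 0
  rw [h0]
  have := hsm 0 0
  simpa using this

theorem li_w (h2 : StA1) (D : Sys n L) {M : ℕ}
    (hli : LinearIndependent ℂ (fun ν : {ν : W n // M ≤ ν.length} => D.w ν.1)) :
    LinearIndependent ℂ D.w := by
  have hn : 0 < n := by
    rcases Nat.eq_zero_or_pos n with rfl | h
    · exfalso
      have := D.comp
      simp at this
    · exact h
  let κ : W n := List.replicate M ⟨0, hn⟩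
  have hκ : κ.length = M := List.length_replicate
  have hinj : Function.Injective (fun μ : W n =>
      (⟨μ ++ κ, by rw [List.length_append, hκ]; omega⟩ : {ν : W n // M ≤ ν.length})) := by
    intro μ μ' h
    exact List.append_cancel_right (congrArg Subtype.val h)
  have h3 := hli.comp _ hinj
  have h4 : LinearIndependent ℂ ((LinearMap.mulRight ℂ (D.w κ)) ∘ D.w) := by
    convert h3 using 1
    funext μ
    simp [(h2 n L D).1]
  exact h4.of_comp _

theorem cf_emb (D : Sys n L) (hli : LinearIndependent ℂ D.w) (p : W n →₀ ℂ) :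
    D.cf (D.emb p) = p := by
  have hinj : LinearMap.ker D.emb = ⊥ := LinearMap.ker_eq_bot.2 hli
  have hex : ∃ f : L →ₗ[ℂ] (W n →₀ ℂ), f ∘ₗ D.emb = LinearMap.id :=
    LinearMap.exists_leftInverse_of_injective D.emb hinj
  have h : D.cf = hex.choose := dif_pos hex
  rw [h]
  exact LinearMap.congr_fun hex.choose_spec p

theorem emb_cf (D : Sys n L) (hli : LinearIndependent ℂ D.w) (y : L) (hy : y ∈ D.S) :
    D.emb (D.cf y) = y := by
  have h1 : y ∈ LinearMap.range D.emb := by
    have h2 : LinearMap.range D.emb = D.S := Finsupp.range_linearCombination ℂ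
    rw [h2]
    exact hy
  obtain ⟨p, rfl⟩ := h1
  rw [cf_emb D hli]

/-- index type -/
abbrev Ix (n M r : ℕ) : Type :=
  ({ν : W n // M ≤ ν.length} ⊕ {ν : W n // M ≤ ν.length}) ⊕ Fin r

/-- the family of K8 -/
noncomputable def Fam (D : Sys n L) (z : ℂ) (M r : ℕ) (e : Fin r → L) : Ix n M r → L :=
  Sum.elim (Sum.elim (fun ν : {ν : W n // M ≤ ν.length} => D.w ν.1)
        (fun ν : {ν : W n // M ≤ ν.length} => D.b.ev z (star (D.w ν.1)))) e

variable {D : Sys n L} {z : ℂ} {M r : ℕ} {e : Fin r → L}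

theorem repr_of_eq {ι : Type} {F : ι → L} (hF : LinearIndependent ℂ F)
    (x : Submodule.span ℂ (Set.range F)) (q : ι →₀ ℂ)
    (h : (x : L) = Finsupp.linearCombination ℂ F q) : (Module.Basis.span hF).repr x = q := by
  have h1 : x = Finsupp.linearCombination ℂ (Module.Basis.span hF) q := by
    apply Subtype.ext
    rw [h, Finsupp.linearCombination_apply, Finsupp.linearCombination_apply, Finsupp.sum,
      Finsupp.sum, Submodule.coe_sum]
    refine Finset.sum_congr rfl fun i _ => ?_
    rw [Submodule.coe_smul, Module.Basis.span_apply]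
  rw [h1, Module.Basis.repr_linearCombination]

theorem sub_sum (hli : LinearIndependent ℂ D.w) (y : L) (hy : y ∈ D.S)
    (hlen : ∀ μ : W n, D.cf y μ ≠ 0 → M ≤ μ.length) :
    y = ((D.cf y).subtypeDomain (fun ν : W n => M ≤ ν.length)).sum fun ν c => c • D.w ν.1 := by
  have h1 : y = (D.cf y).sum fun ν c => c • D.w ν := by
    conv_lhs => rw [← emb_cf D hli y hy]
    rw [Sys.emb, Finsupp.linearCombination_apply]
  have h2 : ((D.cf y).subtypeDomain (fun ν : W n => M ≤ ν.length)).sum (fun ν c => c • D.w ν.1) =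
      (D.cf y).sum fun ν c => c • D.w ν := by
    rw [Finsupp.sum_subtypeDomain_index (h := fun ν c => c • D.w ν)]
    intro μ hμ
    exact hlen μ (Finsupp.mem_support_iff.1 hμ)
  rw [h2]
  exact h1

theorem repr_words (hli : LinearIndependent ℂ D.w) (hF : LinearIndependent ℂ (Fam D z M r e))
    (x : Submodule.span ℂ (Set.range (Fam D z M r e))) (hx : (x : L) ∈ D.S)
    (hlen : ∀ μ : W n, D.cf (x : L) μ ≠ 0 → M ≤ μ.length) :
    (∀ ν, (Module.Basis.span hF).repr x (Sum.inl (Sum.inl ν)) = D.cf (x : L) ν.1) ∧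
    (∀ ν, (Module.Basis.span hF).repr x (Sum.inl (Sum.inr ν)) = 0) ∧
    (∀ l, (Module.Basis.span hF).repr x (Sum.inr l) = 0) := by
  set q := (D.cf (x : L)).subtypeDomain (fun ν : W n => M ≤ ν.length) with hq
  let f : {ν : W n // M ≤ ν.length} → Ix n M r := fun ν => Sum.inl (Sum.inl ν)
  have hf : Function.Injective f := fun a b h => by simpa [f] using h
  have h1 : (Module.Basis.span hF).repr x = q.mapDomain f := by
    apply repr_of_eq
    rw [Finsupp.linearCombination_mapDomain, Finsupp.linearCombination_apply]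
    exact sub_sum hli _ hx hlen
  refine ⟨fun ν => ?_, fun ν => ?_, fun l => ?_⟩
  · rw [h1]
    change q.mapDomain f (f ν) = _
    rw [Finsupp.mapDomain_apply hf, hq, Finsupp.subtypeDomain_apply]
  · rw [h1]
    apply Finsupp.mapDomain_notin_range
    rintro ⟨μ, hμ⟩
    simp [f] at hμ
  · rw [h1]
    apply Finsupp.mapDomain_notin_range
    rintro ⟨μ, hμ⟩
    simp [f] at hμ

theorem repr_ghost (hli : LinearIndependent ℂ D.w) (hF : LinearIndependent ℂ (Fam D z M r e))
    (x : Submodule.span ℂ (Set.range (Fam D z M r e))) (y : L)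
    (hxy : (x : L) = D.b.ev z (star y)) (hy : y ∈ D.S)
    (hlen : ∀ μ : W n, D.cf y μ ≠ 0 → M ≤ μ.length) :
    ∀ ν, (Module.Basis.span hF).repr x (Sum.inl (Sum.inr ν)) = star (D.cf y ν.1) := by
  set q := (D.cf y).subtypeDomain (fun ν : W n => M ≤ ν.length) with hq
  let f : {ν : W n // M ≤ ν.length} → Ix n M r := fun ν => Sum.inl (Sum.inr ν)
  have hf : Function.Injective f := fun a b h => by simpa [f] using h
  have h1 : (Module.Basis.span hF).repr x = (q.mapRange star (star_zero ℂ)).mapDomain f := by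
    apply repr_of_eq
    rw [Finsupp.linearCombination_mapDomain, Finsupp.linearCombination_apply,
      Finsupp.sum_mapRange_index (by intro a; rw [zero_smul]), hxy]
    conv_lhs => rw [sub_sum hli y hy hlen]
    rw [Finsupp.sum, star_sum, map_sum, Finsupp.sum]
    refine Finset.sum_congr rfl fun ν _ => ?_
    rw [star_smul, map_smul]
    rfl
  intro ν
  rw [h1]
  change (q.mapRange star (star_zero ℂ)).mapDomain f (f ν) = _
  rw [Finsupp.mapDomain_apply hf, Finsupp.mapRange_apply, hq, Finsupp.subtypeDomain_apply]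

theorem fin_words (n M K : ℕ) :
    {ν : {ν : W n // M ≤ ν.length} | ν.1.length < K}.Finite := by
  have h := List.finite_length_lt (Fin n) K
  exact h.preimage Subtype.val_injective.injOn

/-- the words of length at least M and less than K -/
noncomputable def Jw (n M K : ℕ) : Finset {ν : W n // M ≤ ν.length} := (fin_words n M K).toFinset

theorem mem_Jw {M K : ℕ} {ν : {ν : W n // M ≤ ν.length}} : ν ∈ Jw n M K ↔ ν.1.length < K := by
  rw [Jw, Set.Finite.mem_toFinset]
  rfl

theorem sum_words (f : W n → ℂ) (M N k : ℕ) (hM : M ≤ N) :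
    ∑ ν ∈ Jw n M (N + k), (if ν.1.length < N then 0 else f ν.1) =
      ∑ i ∈ Finset.range k, ∑ p : Fin (N + i) → Fin n, f (List.ofFn p) := by
  classical
  rw [Finset.sum_sigma']
  have e1 : ∑ ν ∈ Jw n M (N + k), (if ν.1.length < N then 0 else f ν.1) =
      ∑ ν ∈ (Jw n M (N + k)).filter (fun ν => ¬ ν.1.length < N), f ν.1 := by
    rw [Finset.sum_filter]
    refine Finset.sum_congr rfl fun ν _ => ?_
    by_cases h : ν.1.length < N
    · simp [h]
    · simp [h]
  rw [e1]
  symm
  refine Finset.sum_bij (fun x hx => ⟨List.ofFn x.2, by rw [List.length_ofFn]; omega⟩) ?_ ?_ ?_ ?_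
  · rintro ⟨i, p⟩ hx
    simp only [Finset.mem_sigma, Finset.mem_range, Finset.mem_univ, and_true] at hx
    simp only [Finset.mem_filter, mem_Jw, List.length_ofFn]
    omega
  · rintro ⟨i, p⟩ _ ⟨i', p'⟩ _ h
    have h1 : List.ofFn p = List.ofFn p' := congrArg Subtype.val h
    have h2 : i = i' := by
      have := congrArg List.length h1
      simpa using this
    subst h2
    have h3 := List.ofFn_injective h1
    rw [h3]
  · rintro ⟨ν, hν⟩ h
    simp only [Finset.mem_filter, mem_Jw, not_lt] at h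
    obtain ⟨i, hi⟩ : ∃ i, ν.length = N + i := ⟨ν.length - N, by omega⟩
    refine ⟨⟨i, fun t => ν.get (t.cast hi.symm)⟩, ?_, ?_⟩
    · simp only [Finset.mem_sigma, Finset.mem_range, Finset.mem_univ, and_true]
      omega
    · apply Subtype.ext
      apply List.ext_get
      · simp [hi]
      · intro m h1 h2
        simp
  · rintro ⟨i, p⟩ _
    rfl

end general

section key

variable {n : ℕ} {L : Type} [Ring L] [Algebra ℂ L] [StarRing L] [StarModule ℂ L] [Nontrivial L]

theorem sum_single {ι : Type} [DecidableEq ι] (f : ι →₀ ℂ) (x : ι) (hf : f = Finsupp.single x 1)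
    (J : Finset ι) (g : ι → ℂ) :
    ∑ k ∈ f.support \ J, g k * f k = if x ∈ J then 0 else g x := by
  subst hf
  rw [Finsupp.support_single_ne_zero x one_ne_zero]
  by_cases h : x ∈ J
  · rw [if_pos h]
    have : ({x} : Finset ι) \ J = ∅ := by
      rw [Finset.sdiff_eq_empty_iff_subset]
      simpa using h
    rw [this, Finset.sum_empty]
  · rw [if_neg h]
    have : ({x} : Finset ι) \ J = {x} := by
      rw [Finset.sdiff_eq_self_iff_disjoint]
      simpa using h
    rw [this, Finset.sum_singleton, Finsupp.single_eq_same, mul_one]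

theorem key (h1 : StA0) (h2 : StA1) (h3 : StA4) (h5 : StK4) (h7 : StK8)
    (D : Sys n L) (a b : W n) (z : ℂ) (hz : z ≠ 0) :
    ∃ N0, ∀ N ≥ N0, ∃ N1, ∀ N' ≥ N1,
      D.sigN N b (D.b.ev z (star (D.w a))) =
        star (D.sigN N' a (star (D.b.ev z⁻¹ (D.w b)))) := by
  classical
  obtain ⟨M, r, e, hF', hX'⟩ := h7 n L D z hz
  have hF : LinearIndependent ℂ (Fam D z M r e) := hF'
  have hX : Submodule.span ℂ (Set.range (Fam D z M r e)) =
    Submodule.span ℂ (Set.range fun c : W n × W n => D.b.ev z (star (D.w c.1)) * D.w c.2) := hX'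
  have hli : LinearIndependent ℂ D.w := by
    refine li_w h2 D (M := M) ?_
    exact hF.comp (fun ν => Sum.inl (Sum.inl ν)) (fun a b h => by simpa using h)
  obtain ⟨_, hmul, _, hcomp, hone, hst, _⟩ := h1 L D.b
  obtain ⟨hw, _⟩ := h2 n L D
  set Y : L := D.b.ev z (star (D.w a)) with hY
  set Y' : L := star (D.b.ev z⁻¹ (D.w b)) with hY'
  obtain ⟨l1, c1, hl1⟩ := h3 n L D Y
  obtain ⟨l2, c2, hl2⟩ := h3 n L D Y'
  -- the two maps
  have hA : ∀ x ∈ Submodule.span ℂ (Set.range (Fam D z M r e)),
      LinearMap.mulLeft ℂ Y x ∈ Submodule.span ℂ (Set.range (Fam D z M r e)) := by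
    have : Submodule.span ℂ (Set.range (Fam D z M r e)) ≤
        (Submodule.span ℂ (Set.range (Fam D z M r e))).comap (LinearMap.mulLeft ℂ Y) := by
      rw [hX, Submodule.span_le]
      rintro _ ⟨c, rfl⟩
      apply Submodule.subset_span
      refine ⟨(c.1 ++ a, c.2), ?_⟩
      simp only [LinearMap.mulLeft_apply]
      rw [hw, star_mul, hmul z _ _ hz, mul_assoc]
    exact this
  have hB : ∀ x ∈ Submodule.span ℂ (Set.range (Fam D z M r e)),
      LinearMap.mulRight ℂ (D.w b) x ∈ Submodule.span ℂ (Set.range (Fam D z M r e)) := by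
    have : Submodule.span ℂ (Set.range (Fam D z M r e)) ≤
        (Submodule.span ℂ (Set.range (Fam D z M r e))).comap (LinearMap.mulRight ℂ (D.w b)) := by
      rw [hX, Submodule.span_le]
      rintro _ ⟨c, rfl⟩
      apply Submodule.subset_span
      refine ⟨(c.1, c.2 ++ b), ?_⟩
      simp only [LinearMap.mulRight_apply]
      rw [hw, mul_assoc]
    exact this
  let A := (LinearMap.mulLeft ℂ Y).restrict hA
  let B := (LinearMap.mulRight ℂ (D.w b)).restrict hB
  have hAB : A ∘ₗ B = B ∘ₗ A := by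
    apply LinearMap.ext
    intro x
    apply Subtype.ext
    change Y * ((x : L) * D.w b) = (Y * (x : L)) * D.w b
    rw [mul_assoc]
  set bs := Module.Basis.span hF with hbs
  have hbsv : ∀ i, ((bs i : Submodule.span ℂ (Set.range (Fam D z M r e))) : L) = Fam D z M r e i :=
    fun i => by rw [hbs, Module.Basis.span_apply]
  -- action of B on words
  have hBw : ∀ ν : {ν : W n // M ≤ ν.length}, bs.repr (B (bs (Sum.inl (Sum.inl ν)))) =
      Finsupp.single (Sum.inl (Sum.inl ⟨ν.1 ++ b, by
        rw [List.length_append]; exact le_trans ν.2 (Nat.le_add_right _ _)⟩)) 1 := by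
    intro ν
    apply repr_of_eq
    rw [Finsupp.linearCombination_single, one_smul]
    change ((bs (Sum.inl (Sum.inl ν)) : Submodule.span ℂ (Set.range (Fam D z M r e))) : L) * D.w b =
      D.w (ν.1 ++ b)
    rw [hbsv, hw]
    rfl
  -- action of A on ghosts
  have hAg : ∀ ν : {ν : W n // M ≤ ν.length}, bs.repr (A (bs (Sum.inl (Sum.inr ν)))) =
      Finsupp.single (Sum.inl (Sum.inr ⟨ν.1 ++ a, by
        rw [List.length_append]; exact le_trans ν.2 (Nat.le_add_right _ _)⟩)) 1 := by
    intro ν
    apply repr_of_eq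
    rw [Finsupp.linearCombination_single, one_smul]
    change Y * ((bs (Sum.inl (Sum.inr ν)) : Submodule.span ℂ (Set.range (Fam D z M r e))) : L) =
      D.b.ev z (star (D.w (ν.1 ++ a)))
    rw [hbsv, hw, star_mul, hmul z _ _ hz]
    rfl
  -- action of A on long words
  have hAw : ∀ κ : {ν : W n // M ≤ ν.length}, l1 ≤ κ.1.length → M + c1 ≤ κ.1.length →
      (∀ ν, bs.repr (A (bs (Sum.inl (Sum.inl κ)))) (Sum.inl (Sum.inl ν)) =
        D.cf (Y * D.w κ.1) ν.1) ∧
      (∀ ν, bs.repr (A (bs (Sum.inl (Sum.inl κ)))) (Sum.inl (Sum.inr ν)) = 0) ∧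
      (∀ l, bs.repr (A (bs (Sum.inl (Sum.inl κ)))) (Sum.inr l) = 0) := by
    intro κ hκ1 hκ2
    obtain ⟨hS, hlen⟩ := hl1 κ.1 hκ1
    have hv : ((A (bs (Sum.inl (Sum.inl κ))) : Submodule.span ℂ (Set.range (Fam D z M r e))) : L) =
        Y * D.w κ.1 := by
      change Y * ((bs (Sum.inl (Sum.inl κ)) : Submodule.span ℂ (Set.range (Fam D z M r e))) : L) = _
      rw [hbsv]
      rfl
    have := repr_words hli hF (A (bs (Sum.inl (Sum.inl κ)))) (by rw [hv]; exact hS) (by
      intro μ hμ
      rw [hv] at hμ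
      have := (hlen μ hμ).1
      omega)
    rw [hv] at this
    exact this
  -- action of B on long ghosts
  have hBg : ∀ κ : {ν : W n // M ≤ ν.length}, l2 ≤ κ.1.length → M + c2 ≤ κ.1.length →
      (∀ ν, bs.repr (B (bs (Sum.inl (Sum.inr κ)))) (Sum.inl (Sum.inr ν)) =
        star (D.cf (Y' * D.w κ.1) ν.1)) := by
    intro κ hκ1 hκ2
    obtain ⟨hS, hlen⟩ := hl2 κ.1 hκ1
    refine repr_ghost hli hF (B (bs (Sum.inl (Sum.inr κ)))) (Y' * D.w κ.1) ?_ hS ?_
    · change ((bs (Sum.inl (Sum.inr κ)) : Submodule.span ℂ (Set.range (Fam D z M r e))) : L) * D.w b = _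
      rw [hbsv, star_mul, hY', star_star, hmul z _ _ hz, hcomp z z⁻¹ _ hz (inv_ne_zero hz),
        mul_inv_cancel₀ hz, hone]
      rfl
    · intro μ hμ
      have := (hlen μ hμ).1
      omega
  refine ⟨max l1 (M + c1), fun N hN => ?_⟩
  have hN1 : l1 ≤ N := le_trans (le_max_left _ _) hN
  have hN2 : M + c1 ≤ N := le_trans (le_max_right _ _) hN
  -- the finite set of components
  let T : Finset (Ix n M r) :=
    ((Jw n M (N + b.length)).biUnion fun ν => (bs.repr (A (bs (Sum.inl (Sum.inl ν))))).support) ∪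
      (Finset.univ.biUnion fun l : Fin r => (bs.repr (A (bs (Sum.inr l)))).support)
  let sz : Ix n M r → ℕ := fun k => Sum.elim (Sum.elim (fun _ => 0) (fun κ => κ.1.length + 1))
    (fun _ => 0) k
  refine ⟨max (max l2 (M + c2)) (T.sup sz), fun N' hN' => ?_⟩
  have hN'1 : l2 ≤ N' := le_trans (le_trans (le_max_left _ _) (le_max_left _ _)) hN'
  have hN'2 : M + c2 ≤ N' := le_trans (le_trans (le_max_right _ _) (le_max_left _ _)) hN'
  have hN'3 : T.sup sz ≤ N' := le_trans (le_max_right _ _) hN'
  have hT : ∀ κ : {ν : W n // M ≤ ν.length}, (Sum.inl (Sum.inr κ) : Ix n M r) ∈ T →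
      κ.1.length < N' := by
    intro κ hκ
    have h8 : sz (Sum.inl (Sum.inr κ)) ≤ T.sup sz := Finset.le_sup hκ
    have h9 : sz (Sum.inl (Sum.inr κ)) = κ.1.length + 1 := rfl
    omega
  let J : Finset (Ix n M r) :=
    ((Jw n M (N + b.length)).disjSum (Jw n M (N' + a.length))).disjSum Finset.univ
  have hJ1 : ∀ ν, (Sum.inl (Sum.inl ν) : Ix n M r) ∈ J ↔ ν.1.length < N + b.length := by
    intro ν
    simp only [J, Finset.inl_mem_disjSum, mem_Jw]
  have hJ2 : ∀ ν, (Sum.inl (Sum.inr ν) : Ix n M r) ∈ J ↔ ν.1.length < N' + a.length := by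
    intro ν
    simp only [J, Finset.inl_mem_disjSum, Finset.inr_mem_disjSum, mem_Jw]
  have hJ3 : ∀ l, (Sum.inr l : Ix n M r) ∈ J := by
    intro l
    simp only [J, Finset.inr_mem_disjSum, Finset.mem_univ]
  have hk4 := h5 _ _ bs A B hAB J
  have hleft : ∑ i ∈ J, ∑ k ∈ (bs.repr (B (bs i))).support \ J,
      (bs.repr (A (bs k))) i * (bs.repr (B (bs i))) k = D.sigN N b Y := by
    simp only [J, Finset.sum_disjSum]
    change (∑ ν ∈ Jw n M (N + b.length), ∑ k ∈ (bs.repr (B (bs (Sum.inl (Sum.inl ν))))).support \ J,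
      (bs.repr (A (bs k))) (Sum.inl (Sum.inl ν)) * (bs.repr (B (bs (Sum.inl (Sum.inl ν))))) k +
      ∑ ν ∈ Jw n M (N' + a.length), ∑ k ∈ (bs.repr (B (bs (Sum.inl (Sum.inr ν))))).support \ J,
      (bs.repr (A (bs k))) (Sum.inl (Sum.inr ν)) * (bs.repr (B (bs (Sum.inl (Sum.inr ν))))) k) +
      ∑ l : Fin r, ∑ k ∈ (bs.repr (B (bs (Sum.inr l)))).support \ J,
      (bs.repr (A (bs k))) (Sum.inr l) * (bs.repr (B (bs (Sum.inr l)))) k = _
    have z1 : ∑ ν ∈ Jw n M (N' + a.length), ∑ k ∈ (bs.repr (B (bs (Sum.inl (Sum.inr ν))))).support \ J,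
      (bs.repr (A (bs k))) (Sum.inl (Sum.inr ν)) * (bs.repr (B (bs (Sum.inl (Sum.inr ν))))) k = 0 := by
      refine Finset.sum_eq_zero fun ν hν => Finset.sum_eq_zero fun k hk => ?_
      rw [mem_Jw] at hν
      have hkJ := (Finset.mem_sdiff.1 hk).2
      rcases k with (κ | κ) | l
      · rw [hJ1] at hkJ
        rw [(hAw κ (by omega) (by omega)).2.1, zero_mul]
      · rw [hJ2] at hkJ
        rw [hAg, Finsupp.single_apply, if_neg, zero_mul]
        intro h
        have := congrArg List.length (congrArg Subtype.val (Sum.inr_injective (Sum.inl_injective h)))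
        simp only [List.length_append] at this
        omega
      · exact absurd (hJ3 l) hkJ
    have z2 : ∑ l : Fin r, ∑ k ∈ (bs.repr (B (bs (Sum.inr l)))).support \ J,
      (bs.repr (A (bs k))) (Sum.inr l) * (bs.repr (B (bs (Sum.inr l)))) k = 0 := by
      refine Finset.sum_eq_zero fun l' _ => Finset.sum_eq_zero fun k hk => ?_
      have hkJ := (Finset.mem_sdiff.1 hk).2
      rcases k with (κ | κ) | l
      · rw [hJ1] at hkJ
        rw [(hAw κ (by omega) (by omega)).2.2, zero_mul]
      · rw [hAg, Finsupp.single_apply, if_neg, zero_mul]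
        intro h
        simp at h
      · exact absurd (hJ3 l) hkJ
    rw [z1, z2, add_zero, add_zero]
    have z3 : ∀ ν ∈ Jw n M (N + b.length),
        ∑ k ∈ (bs.repr (B (bs (Sum.inl (Sum.inl ν))))).support \ J,
        (bs.repr (A (bs k))) (Sum.inl (Sum.inl ν)) * (bs.repr (B (bs (Sum.inl (Sum.inl ν))))) k =
        if ν.1.length < N then 0 else D.cf (Y * D.w (ν.1 ++ b)) ν.1 := by
      intro ν hν
      rw [sum_single _ _ (hBw ν) J]
      by_cases h : ν.1.length < N
      · rw [if_pos h, if_pos]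
        rw [hJ1]
        simp only [List.length_append]
        omega
      · rw [if_neg h, if_neg]
        · rw [(hAw ⟨ν.1 ++ b, _⟩ (by simp only [List.length_append]; omega)
            (by simp only [List.length_append]; omega)).1]
        · rw [hJ1]
          simp only [List.length_append]
          omega
    rw [Finset.sum_congr rfl z3, sum_words (fun ν => D.cf (Y * D.w (ν ++ b)) ν) M N b.length (by omega)]
    rfl
  have hright : ∑ i ∈ J, ∑ k ∈ (bs.repr (A (bs i))).support \ J,
      (bs.repr (B (bs k))) i * (bs.repr (A (bs i))) k = star (D.sigN N' a Y') := by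
    simp only [J, Finset.sum_disjSum]
    change (∑ ν ∈ Jw n M (N + b.length), ∑ k ∈ (bs.repr (A (bs (Sum.inl (Sum.inl ν))))).support \ J,
      (bs.repr (B (bs k))) (Sum.inl (Sum.inl ν)) * (bs.repr (A (bs (Sum.inl (Sum.inl ν))))) k +
      ∑ ν ∈ Jw n M (N' + a.length), ∑ k ∈ (bs.repr (A (bs (Sum.inl (Sum.inr ν))))).support \ J,
      (bs.repr (B (bs k))) (Sum.inl (Sum.inr ν)) * (bs.repr (A (bs (Sum.inl (Sum.inr ν))))) k) +
      ∑ l : Fin r, ∑ k ∈ (bs.repr (A (bs (Sum.inr l)))).support \ J,
      (bs.repr (B (bs k))) (Sum.inr l) * (bs.repr (A (bs (Sum.inr l)))) k = _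
    have z1 : ∑ ν ∈ Jw n M (N + b.length), ∑ k ∈ (bs.repr (A (bs (Sum.inl (Sum.inl ν))))).support \ J,
      (bs.repr (B (bs k))) (Sum.inl (Sum.inl ν)) * (bs.repr (A (bs (Sum.inl (Sum.inl ν))))) k = 0 := by
      refine Finset.sum_eq_zero fun ν hν => Finset.sum_eq_zero fun k hk => ?_
      have hν' := mem_Jw.1 hν
      have hkJ := (Finset.mem_sdiff.1 hk).2
      have hks := (Finset.mem_sdiff.1 hk).1
      rcases k with (κ | κ) | l
      · rw [hJ1] at hkJ
        rw [hBw, Finsupp.single_apply, if_neg, zero_mul]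
        intro h
        have := congrArg List.length (congrArg Subtype.val (Sum.inl_injective (Sum.inl_injective h)))
        simp only [List.length_append] at this
        omega
      · rw [hJ2] at hkJ
        exfalso
        have : (Sum.inl (Sum.inr κ) : Ix n M r) ∈ T :=
          Finset.mem_union_left _ (Finset.mem_biUnion.2 ⟨ν, hν, hks⟩)
        have := hT κ this
        omega
      · exact absurd (hJ3 l) hkJ
    have z2 : ∑ l : Fin r, ∑ k ∈ (bs.repr (A (bs (Sum.inr l)))).support \ J,
      (bs.repr (B (bs k))) (Sum.inr l) * (bs.repr (A (bs (Sum.inr l)))) k = 0 := by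
      refine Finset.sum_eq_zero fun l' _ => Finset.sum_eq_zero fun k hk => ?_
      have hkJ := (Finset.mem_sdiff.1 hk).2
      have hks := (Finset.mem_sdiff.1 hk).1
      rcases k with (κ | κ) | l
      · rw [hBw, Finsupp.single_apply, if_neg, zero_mul]
        intro h
        simp at h
      · rw [hJ2] at hkJ
        exfalso
        have : (Sum.inl (Sum.inr κ) : Ix n M r) ∈ T :=
          Finset.mem_union_right _ (Finset.mem_biUnion.2 ⟨l', Finset.mem_univ _, hks⟩)
        have := hT κ this
        omega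
      · exact absurd (hJ3 l) hkJ
    rw [z1, z2, zero_add, add_zero]
    have z3 : ∀ ν ∈ Jw n M (N' + a.length),
        ∑ k ∈ (bs.repr (A (bs (Sum.inl (Sum.inr ν))))).support \ J,
        (bs.repr (B (bs k))) (Sum.inl (Sum.inr ν)) * (bs.repr (A (bs (Sum.inl (Sum.inr ν))))) k =
        if ν.1.length < N' then 0 else star (D.cf (Y' * D.w (ν.1 ++ a)) ν.1) := by
      intro ν hν
      rw [sum_single _ _ (hAg ν) J]
      by_cases h : ν.1.length < N'
      · rw [if_pos h, if_pos]
        rw [hJ2]
        simp only [List.length_append]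
        omega
      · rw [if_neg h, if_neg]
        · rw [(hBg ⟨ν.1 ++ a, _⟩ (by simp only [List.length_append]; omega)
            (by simp only [List.length_append]; omega))]
        · rw [hJ2]
          simp only [List.length_append]
          omega
    rw [Finset.sum_congr rfl z3,
      sum_words (fun ν => star (D.cf (Y' * D.w (ν ++ a)) ν)) M N' a.length (by omega),
      Sys.sigN, star_sum]
    refine Finset.sum_congr rfl fun i _ => ?_
    rw [star_sum]
  rw [← hleft, ← hright]
  exact hk4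

end key

theorem hK9 (h1 : StA0) (h2 : StA1) (h3 : StA4) (h4 : StK2) (h5 : StK4) (h6 : StK5) (h7 : StK8) :
    StK9 := by
  intro n L _ _ _ _ _ D a b j ha hb
  have hmain : ∀ u : ℂ, u ≠ 0 → star (D.tau b (D.b.ev (star u) (D.w a))) =
      D.tau a (D.b.ev u (D.w b)) := by
    intro u hu
    obtain ⟨N0, hN0⟩ := key h1 h2 h3 h5 h7 D a b u⁻¹ (inv_ne_zero hu)
    obtain ⟨N1, hN1⟩ := h6 n L D b (D.b.ev u⁻¹ (star (D.w a)))
    obtain ⟨N2, hN2⟩ := h6 n L D a (star (D.b.ev u (D.w b)))
    obtain ⟨_, _, _, _, _, hst, _⟩ := h1 L D.b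
    have hs : star (D.b.ev u⁻¹ (star (D.w a))) = D.b.ev (star u) (D.w a) := by
      rw [hst _ _ (inv_ne_zero hu), star_star, star_inv₀, inv_inv]
    rw [hs] at hN1
    obtain ⟨N3, hN3⟩ := (h4 n L D b hb).1 (D.b.ev (star u) (D.w a))
    obtain ⟨N4, hN4⟩ := (h4 n L D a ha).1 (D.b.ev u (D.w b))
    rw [star_star] at hN2
    let N := max N0 (max N1 N3)
    obtain ⟨N5, hN5⟩ := hN0 N (le_max_left _ _)
    let N' := max N5 (max N2 N4)
    have e1 := hN5 N' (le_max_left _ _)
    rw [inv_inv, hN1 N (le_trans (le_max_left _ _) (le_max_right _ _)),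
      hN3 N (le_trans (le_max_right _ _) (le_max_right _ _)),
      hN2 N' (le_trans (le_max_left _ _) (le_max_right _ _)),
      hN4 N' (le_trans (le_max_right _ _) (le_max_right _ _)), star_star] at e1
    exact e1
  have hf1 := tau_fin h4 D b hb (D.w a)
  have hf2 := tau_fin h4 D a ha (D.w b)
  have hc : (fun i : ℤ => star (D.tau b (D.b.p i (D.w a))) - D.tau a (D.b.p i (D.w b))) = 0 := by
    apply laurent
    · refine (hf1.union hf2).subset ?_
      intro i hi
      by_contra hcon
      rw [Set.mem_union, not_or, Function.mem_support, Function.mem_support, not_not, not_not] at hcon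
      apply hi
      change star (D.tau b (D.b.p i (D.w a))) - D.tau a (D.b.p i (D.w b)) = 0
      rw [hcon.1, hcon.2, star_zero, sub_zero]
    · intro u hu
      have h8 := hmain u hu
      rw [tau_ev h4 D b hb, tau_ev h4 D a ha] at h8
      have h9 : star (∑ᶠ i : ℤ, star u ^ i * D.tau b (D.b.p i (D.w a))) =
          ∑ᶠ i : ℤ, u ^ i * star (D.tau b (D.b.p i (D.w a))) := by
        have h10 := (starRingEnd ℂ).toAddMonoidHom.map_finsum
          (f := fun i : ℤ => star u ^ i * D.tau b (D.b.p i (D.w a)))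
          (hf1.subset (by
            intro i hi h0
            apply hi
            change star u ^ i * D.tau b (D.b.p i (D.w a)) = 0
            have h0' : D.tau b (D.b.p i (D.w a)) = 0 := h0
            rw [h0', mul_zero]))
        refine h10.trans (finsum_congr fun i => ?_)
        change star (star u ^ i * D.tau b (D.b.p i (D.w a))) = _
        rw [star_mul, star_zpow₀, star_star, mul_comm]
      rw [h9] at h8
      have h11 : ∑ᶠ i : ℤ, u ^ i * (star (D.tau b (D.b.p i (D.w a))) - D.tau a (D.b.p i (D.w b))) =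
          ∑ᶠ i : ℤ, u ^ i * star (D.tau b (D.b.p i (D.w a))) -
            ∑ᶠ i : ℤ, u ^ i * D.tau a (D.b.p i (D.w b)) := by
        rw [← finsum_sub_distrib]
        · exact finsum_congr fun i => by ring
        · refine hf1.subset ?_
          intro i hi h0
          apply hi
          change u ^ i * star (D.tau b (D.b.p i (D.w a))) = 0
          have h0' : D.tau b (D.b.p i (D.w a)) = 0 := h0
          rw [h0', star_zero, mul_zero]
        · refine hf2.subset ?_
          intro i hi h0
          apply hi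
          change u ^ i * D.tau a (D.b.p i (D.w b)) = 0
          have h0' : D.tau a (D.b.p i (D.w b)) = 0 := h0
          rw [h0', mul_zero]
      rw [h11, h8, sub_self]
  have hj := congrFun hc j
  have hj' : star (D.tau b (D.b.p j (D.w a))) = D.tau a (D.b.p j (D.w b)) := by
    have : star (D.tau b (D.b.p j (D.w a))) - D.tau a (D.b.p j (D.w b)) = 0 := hj
    exact sub_eq_zero.1 this
  rw [← hj', star_star]

end Pool.Agent.Helper57.SI
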